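import Mathlib

/-!
# The two-point functions with ended lines: the list of properties (board/TP)

`W I J FR FL` = the (rescaled) weight of one path from `f` to `f'` on the cylinder.  Right half cylinder: the
lines `I`, `FR`, `J`, `q` (bottom to top), left half cylinder: the lines `I`, `FL`, `J`, `g`; the lines of `I` and
of `J` are glued, the lines of `FR`, `FL` end at the face `f`, the lines `q` (occupied) and `g` (empty) end at the
face `f'`.  An ended line is a pair (rapidity, state), `true` = occupied; exactly one of the lines of `FR`, `FL` is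
occupied.  `Data0` = the linear properties D1-D6 of exact/TWOPOINT_UNIQ_h89, `Data` = `Data0` and the values D7
without full lines.
-/

set_option autoImplicit false

namespace Pool.Agent.TP

open Polynomial

/-- `π / 8` -/
noncomputable def lam : ℂ := Real.pi / 8

/-- `s k z = sin (z + k λ)` -/
noncomputable def s (k : ℤ) (z : ℂ) : ℂ := Complex.sin (z + k * lam)

/-- `s₂ s₃` -/
noncomputable def kk (z : ℂ) : ℂ := s 2 z * s 3 z

/-- Trigonometric polynomials `∑ c_k e^{i k z}`, `k = n, n - 2, .., -n`, with `c_n = a` and `c_{-n} = b`. -/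
def TPc (n : ℕ) (f : ℂ → ℂ) (a b : ℂ) : Prop :=
  ∃ P : ℂ[X], P.natDegree ≤ n ∧ P.coeff n = a ∧ P.coeff 0 = b ∧
    ∀ z, Complex.exp (n * (Complex.I * z)) * f z = P.eval (Complex.exp (2 * (Complex.I * z)))

/-- Trigonometric polynomials of degree `n` and of the parity of `n`. -/
def Trig (n : ℕ) (f : ℂ → ℂ) : Prop := ∃ a b, TPc n f a b

/-- Generic rapidities. -/
def Gen (L : List ℂ) : Prop := L.Pairwise fun a b => ∀ k : ℤ, s k (a - b) ≠ 0

/-- Ended lines. -/
abbrev El := ℂ × Bool

/-- The other lines of a side: the full lines, the ended lines `A` at `f`, the line `q` at `f'`. -/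
def rest (q : ℂ) (I J : List ℂ) (A : List El) : List ℂ := I ++ J ++ A.map Prod.fst ++ [q]

/-- The family: exactly one occupied line, at most one empty line. -/
def Fam (FR FL : List El) : Prop :=
  (FR ++ FL).length ≤ 2 ∧ ((FR ++ FL).filter fun t => t.2).length = 1

/-- Generic full lines. -/
def Ok (q g : ℂ) (I J : List ℂ) : Prop := Gen (I ++ J ++ [q]) ∧ Gen (I ++ J ++ [g])

/-- **The linear properties D1-D6.** -/
structure Data0 (q g : ℂ) (W : List ℂ → List ℂ → List El → List El → ℂ) : Prop where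
  /-- D1, D2, right, empty line. -/
  degR : ∀ {I J : List ℂ} {A B FL : List El}, Ok q g I J → Fam (A ++ (0, false) :: B) FL →
    TPc (I.length + J.length + A.length + B.length + 1) (fun z => W I J (A ++ (z, false) :: B) FL)
      (((rest q I J (A ++ B)).map fun c => Complex.exp (-(Complex.I * c)) / 2).prod * W I J (A ++ B) FL)
      (((rest q I J (A ++ B)).map fun c => Complex.exp (Complex.I * c) / 2).prod * W I J (A ++ B) FL)
  /-- D1, D2, left, empty line. -/
  degL : ∀ {I J : List ℂ} {A B FR : List El}, Ok q g I J → Fam FR (A ++ (0, false) :: B) →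
    TPc (I.length + J.length + A.length + B.length + 1) (fun z => W I J FR (A ++ (z, false) :: B))
      (((rest g I J (A ++ B)).map fun c => Complex.exp (-(Complex.I * c)) / 2).prod * W I J FR (A ++ B))
      (((rest g I J (A ++ B)).map fun c => Complex.exp (Complex.I * c) / 2).prod * W I J FR (A ++ B))
  /-- D1, right, occupied line. -/
  degR1 : ∀ {I J : List ℂ} {A B FL : List El}, Ok q g I J → Fam (A ++ (0, true) :: B) FL →
    Trig (I.length + J.length + A.length + B.length) (fun z => W I J (A ++ (z, true) :: B) FL)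
  /-- D1, left, occupied line. -/
  degL1 : ∀ {I J : List ℂ} {A B FR : List El}, Ok q g I J → Fam FR (A ++ (0, true) :: B) →
    Trig (I.length + J.length + A.length + B.length) (fun z => W I J FR (A ++ (z, true) :: B))
  /-- D3, right, lowest line at `x - 3 λ`. -/
  nodeRI : ∀ {I₁ I₂ J : List ℂ} {A FL : List El} {x : ℂ} {st : Bool}, Ok q g (I₁ ++ x :: I₂) J →
    Fam ((0, st) :: A) FL → W (I₁ ++ x :: I₂) J ((x - 3 * lam, st) :: A) FL =
      Complex.sin lam * ((rest q (I₁ ++ I₂) J A).map fun c => kk (x - c)).prod *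
        W (I₁ ++ I₂) J A ((x, st) :: FL)
  /-- D3, right, highest line at `y + 3 λ`. -/
  nodeRJ : ∀ {I J₁ J₂ : List ℂ} {A FL : List El} {y : ℂ} {st : Bool}, Ok q g I (J₁ ++ y :: J₂) →
    Fam ((0, st) :: A) FL → W I (J₁ ++ y :: J₂) (A ++ [(y + 3 * lam, st)]) FL =
      Complex.sin lam * ((rest q I (J₁ ++ J₂) A).map fun c => kk (c - y)).prod *
        W I (J₁ ++ J₂) A (FL ++ [(y, st)])
  /-- D3, left, lowest line at `x + 3 λ`. -/
  nodeLI : ∀ {I₁ I₂ J : List ℂ} {A FR : List El} {x : ℂ} {st : Bool}, Ok q g (I₁ ++ x :: I₂) J →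
    Fam FR ((0, st) :: A) → W (I₁ ++ x :: I₂) J FR ((x + 3 * lam, st) :: A) =
      Complex.sin lam * ((rest g (I₁ ++ I₂) J A).map fun c => kk (c - x)).prod *
        W (I₁ ++ I₂) J ((x, st) :: FR) A
  /-- D3, left, highest line at `y - 3 λ`. -/
  nodeLJ : ∀ {I J₁ J₂ : List ℂ} {A FR : List El} {y : ℂ} {st : Bool}, Ok q g I (J₁ ++ y :: J₂) →
    Fam FR ((0, st) :: A) → W I (J₁ ++ y :: J₂) FR (A ++ [(y - 3 * lam, st)]) =
      Complex.sin lam * ((rest g I (J₁ ++ J₂) A).map fun c => kk (y - c)).prod *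
        W I (J₁ ++ J₂) (FR ++ [(y, st)]) A
  /-- D4, right. -/
  exchR : ∀ {I J : List ℂ} {a b : ℂ} {st : Bool}, Ok q g I J →
    kk (b - a) * W I J [(b, st), (a, !st)] [] = s 3 (-(b - a)) *
      (s 2 0 * W I J [(a, st), (b, !st)] [] + s 0 (b - a) * W I J [(a, !st), (b, st)] [])
  /-- D4, left. -/
  exchL : ∀ {I J : List ℂ} {a b : ℂ} {st : Bool}, Ok q g I J →
    kk (a - b) * W I J [] [(b, st), (a, !st)] = s 3 (-(a - b)) *
      (s 2 0 * W I J [] [(a, st), (b, !st)] + s 0 (a - b) * W I J [] [(a, !st), (b, st)])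
  /-- D5, right. -/
  zeroR : ∀ {I J : List ℂ} {a : ℂ} {st : Bool}, Ok q g I J →
    W I J [(a, st), (a - 3 * lam, !st)] [] = 0
  /-- D5, left. -/
  zeroL : ∀ {I J : List ℂ} {a : ℂ} {st : Bool}, Ok q g I J →
    W I J [] [(a, st), (a + 3 * lam, !st)] = 0
  /-- D6, right. -/
  fuseR : ∀ {I J : List ℂ} {a : ℂ} {st : Bool}, Ok q g I J →
    W I J [(a, st), (a - 2 * lam, !st)] [] = Complex.sin lam *
      ((rest q I J []).map fun c => Complex.cos (a - lam - c)).prod * W I J [(a - lam, true)] []
  /-- D6, left. -/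
  fuseL : ∀ {I J : List ℂ} {a : ℂ} {st : Bool}, Ok q g I J →
    W I J [] [(a, st), (a + 2 * lam, !st)] = Complex.sin lam *
      ((rest g I J []).map fun c => Complex.cos (a + lam - c)).prod * W I J [] [(a + lam, true)]

/-- **The list of properties D1-D7.** -/
structure Data (q g : ℂ) (W : List ℂ → List ℂ → List El → List El → ℂ) : Prop extends Data0 q g W where
  nilR : ∀ p, W [] [] [(p, true)] [] = Complex.sin lam
  nilL : ∀ p, W [] [] [] [(p, true)] = 0
  nilX : ∀ a b, W [] [] [(a, true), (b, false)] [] = Complex.sin lam * s 3 (b - a) * s 3 (q - b)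
  nilY : ∀ a b, W [] [] [(a, false), (b, true)] [] = Complex.sin lam * s 3 (b - a) * s 3 (a - q)
  nilOE : ∀ p h, W [] [] [(p, true)] [(h, false)] = Complex.sin lam * Complex.cos (h - g)
  nilEO : ∀ p h, W [] [] [(p, false)] [(h, true)] = 0
  nilLL : ∀ a b st, W [] [] [] [(a, st), (b, !st)] = 0

end Pool.Agent.TP
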