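import Pool.Agent.TP.Data

/-!
# The two-point functions with ended lines: uniqueness (board/TP)
-/

set_option autoImplicit false

namespace Pool.Agent.TP

open Polynomial

/-! ### Trigonometric polynomials -/

theorem exp_two {z w : ℂ} (h : Complex.exp (2 * (Complex.I * z)) = Complex.exp (2 * (Complex.I * w))) :
    Complex.sin (z - w) = 0 := by
  obtain ⟨n, hn⟩ := Complex.exp_eq_exp_iff_exists_int.1 h
  have h1 : z - w = n * Real.pi := by
    have h2 : (2 * Complex.I) * (z - w) = (2 * Complex.I) * (n * Real.pi) := by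
      linear_combination hn
    exact mul_left_cancel₀ (mul_ne_zero two_ne_zero Complex.I_ne_zero) h2
  rw [h1]
  exact Complex.sin_int_mul_pi n

theorem exp_surj {t : ℂ} (ht : t ≠ 0) : ∃ z, Complex.exp (2 * (Complex.I * z)) = t := by
  refine ⟨Complex.log t / (2 * Complex.I), ?_⟩
  rw [show 2 * (Complex.I * (Complex.log t / (2 * Complex.I))) = Complex.log t by
    field_simp]
  exact Complex.exp_log ht

theorem sin_symm {z w : ℂ} (h : Complex.sin (z - w) ≠ 0) : Complex.sin (w - z) ≠ 0 := by
  rw [show w - z = -(z - w) by ring, Complex.sin_neg]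
  exact neg_ne_zero.2 h

/-- The values at the nodes determine the roots. -/
theorem roots_card {P : ℂ[X]} {L : List ℂ} (hL : L.Pairwise fun z w => Complex.sin (z - w) ≠ 0)
    (hz : ∀ z ∈ L, P.eval (Complex.exp (2 * (Complex.I * z))) = 0) :
    ∃ S : Finset ℂ, S.card = L.length ∧ ∀ t ∈ S, t ≠ 0 ∧ P.eval t = 0 := by
  classical
  have hn : (L.map fun z => Complex.exp (2 * (Complex.I * z))).Nodup := by
    rw [List.Nodup, List.pairwise_map]
    exact hL.imp fun h e => h (exp_two e)
  refine ⟨(L.map fun z => Complex.exp (2 * (Complex.I * z))).toFinset, ?_, ?_⟩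
  · rw [List.toFinset_card_of_nodup hn, List.length_map]
  · intro t ht
    rw [List.mem_toFinset, List.mem_map] at ht
    obtain ⟨z, hz1, rfl⟩ := ht
    exact ⟨Complex.exp_ne_zero _, hz z hz1⟩

section trig

variable {n : ℕ} {f f' : ℂ → ℂ} {a b a' b' : ℂ}

theorem TPc.trig (h : TPc n f a b) : Trig n f := ⟨a, b, h⟩

theorem zero_of_poly {P : ℂ[X]} (hP : P = 0)
    (h : ∀ z, Complex.exp (n * (Complex.I * z)) * f z = P.eval (Complex.exp (2 * (Complex.I * z)))) (z : ℂ) :
    f z = 0 := by
  have h1 := h z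
  rw [hP, Polynomial.eval_zero] at h1
  exact (mul_eq_zero.1 h1).resolve_left (Complex.exp_ne_zero _)

theorem Trig.zero (h : Trig n f) {L : List ℂ} (hL : L.Pairwise fun z w => Complex.sin (z - w) ≠ 0)
    (hz : ∀ z ∈ L, f z = 0) (hn : n < L.length) (z : ℂ) : f z = 0 := by
  obtain ⟨a, b, P, h1, -, -, h2⟩ := h
  obtain ⟨S, hS, hS1⟩ := roots_card (P := P) hL fun z hz1 => by rw [← h2, hz z hz1, mul_zero]
  refine zero_of_poly (P := P) ?_ h2 z
  refine Polynomial.eq_zero_of_natDegree_lt_card_of_eval_eq_zero' P S (fun t ht => (hS1 t ht).2) ?_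
  rw [hS]
  exact lt_of_le_of_lt h1 hn

theorem TPc.zero (h : TPc n f 0 0) {L : List ℂ} (hL : L.Pairwise fun z w => Complex.sin (z - w) ≠ 0)
    (hz : ∀ z ∈ L, f z = 0) (hn : n < L.length + 2) (z : ℂ) : f z = 0 := by
  classical
  obtain ⟨P, h1, h3, h4, h2⟩ := h
  obtain ⟨S, hS, hS1⟩ := roots_card (P := P) hL fun z hz1 => by rw [← h2, hz z hz1, mul_zero]
  refine zero_of_poly (P := P) ?_ h2 z
  rcases Nat.eq_zero_or_pos n with h0 | h0
  · subst h0
    rw [Polynomial.eq_C_of_natDegree_le_zero h1, h3, Polynomial.C_0]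
  have h5 : P.natDegree < n := by
    refine lt_of_le_of_ne h1 fun e => ?_
    have h6 : P = 0 := by
      rw [← Polynomial.leadingCoeff_eq_zero, Polynomial.leadingCoeff, e, h3]
    rw [h6, Polynomial.natDegree_zero] at e
    omega
  have h0S : (0 : ℂ) ∉ S := fun h => (hS1 0 h).1 rfl
  refine Polynomial.eq_zero_of_natDegree_lt_card_of_eval_eq_zero' P (insert 0 S) (fun t ht => ?_) ?_
  · rcases Finset.mem_insert.1 ht with rfl | ht
    · rw [← Polynomial.coeff_zero_eq_eval_zero, h4]
    · exact (hS1 t ht).2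
  · rw [Finset.card_insert_of_notMem h0S, hS]
    omega

/-- A trigonometric polynomial which vanishes at the generic points vanishes. -/
theorem Trig.zero_gen (h : Trig n f) (E : List ℂ)
    (hz : ∀ z, (∀ e ∈ E, Complex.sin (z - e) ≠ 0) → f z = 0) (z : ℂ) : f z = 0 := by
  classical
  obtain ⟨a, b, P, -, -, -, h2⟩ := h
  refine zero_of_poly (P := P) ?_ h2 z
  let B : Finset ℂ := insert 0 ((E.map fun e => Complex.exp (2 * (Complex.I * e))).toFinset)
  have hB : ((B : Set ℂ)ᶜ).Infinite := (Finset.finite_toSet B).infinite_compl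
  refine Polynomial.eq_zero_of_infinite_isRoot P (hB.mono fun t ht => ?_)
  have ht' : t ∉ B := fun h => ht (Finset.mem_coe.2 h)
  rw [Finset.mem_insert, not_or] at ht'
  obtain ⟨w, hw⟩ := exp_surj ht'.1
  show P.IsRoot t
  rw [Polynomial.IsRoot.def, ← hw, ← h2, hz w ?_, mul_zero]
  intro e he hs
  apply ht'.2
  rw [List.mem_toFinset, List.mem_map]
  refine ⟨e, he, ?_⟩
  rw [← hw]
  obtain ⟨k, hk⟩ := Complex.sin_eq_zero_iff.1 hs
  rw [Complex.exp_eq_exp_iff_exists_int]
  exact ⟨-k, by push_cast; linear_combination (-2 * Complex.I) * hk⟩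

theorem TPc.sub (h : TPc n f a b) (h' : TPc n f' a' b') : TPc n (fun z => f z - f' z) (a - a') (b - b') := by
  obtain ⟨P, h1, h2, h3, h4⟩ := h
  obtain ⟨P', h1', h2', h3', h4'⟩ := h'
  refine ⟨P - P', (Polynomial.natDegree_sub_le _ _).trans (max_le h1 h1'), ?_, ?_, fun z => ?_⟩
  · rw [Polynomial.coeff_sub, h2, h2']
  · rw [Polynomial.coeff_sub, h3, h3']
  · rw [mul_sub, h4, h4', Polynomial.eval_sub]

theorem Trig.sub (h : Trig n f) (h' : Trig n f') : Trig n (fun z => f z - f' z) := by
  obtain ⟨a, b, h⟩ := h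
  obtain ⟨a', b', h'⟩ := h'
  exact ⟨_, _, h.sub h'⟩

theorem TPc.congr_fun (h : TPc n f a b) (hf : ∀ z, f z = f' z) : TPc n f' a b := by
  have : f = f' := funext hf
  rwa [this] at h

theorem TPc.congr' (h : TPc n f a b) (ha : a = a') (hb : b = b') : TPc n f a' b' := ha ▸ hb ▸ h

/-- The mirror image of a trigonometric polynomial. -/
theorem TPc.neg (h : TPc n f a b) : TPc n (fun z => f (-z)) b a := by
  obtain ⟨P, h1, h2, h3, h4⟩ := h
  refine ⟨P.reflect n, ?_, ?_, ?_, fun z => ?_⟩
  · rw [Polynomial.natDegree_le_iff_coeff_eq_zero]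
    intro N hN
    rw [Polynomial.coeff_reflect, Polynomial.revAt_eq_self_of_lt hN]
    exact Polynomial.coeff_eq_zero_of_natDegree_lt (lt_of_le_of_lt h1 hN)
  · rw [Polynomial.coeff_reflect, Polynomial.revAt_le le_rfl, Nat.sub_self, h3]
  · rw [Polynomial.coeff_reflect, Polynomial.revAt_le (Nat.zero_le _), Nat.sub_zero, h2]
  · set x := Complex.exp (2 * (Complex.I * z)) with hx
    have hx0 : x ≠ 0 := Complex.exp_ne_zero _
    have h5 := h4 (-z)
    have e1 : Complex.exp (2 * (Complex.I * -z)) = x⁻¹ := by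
      rw [hx, ← Complex.exp_neg]
      congr 1
      ring
    rw [e1] at h5
    have h6 : (P.reflect n).eval x = x ^ n * P.eval x⁻¹ := by
      let _ : Invertible (x⁻¹ : ℂ) := invertibleOfNonzero (inv_ne_zero hx0)
      have h7 := Polynomial.eval₂_reflect_mul_pow (RingHom.id ℂ) (x⁻¹ : ℂ) n P h1
      rw [invOf_eq_inv, inv_inv, Polynomial.eval₂_id, Polynomial.eval₂_id] at h7
      rw [← h7, inv_pow, mul_comm, mul_assoc, inv_mul_cancel₀ (pow_ne_zero n hx0), mul_one]
    have e2 : x ^ n * Complex.exp (n * (Complex.I * -z)) = Complex.exp (n * (Complex.I * z)) := by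
      rw [hx, ← Complex.exp_nat_mul, ← Complex.exp_add]
      congr 1
      ring
    rw [h6, ← h5, ← e2, mul_assoc]

end trig

/-! ### Differences and mirror images -/

section lin

variable {q g : ℂ} {W W' : List ℂ → List ℂ → List El → List El → ℂ}

/-- The difference of two families. -/
theorem Data0.sub (h : Data0 q g W) (h' : Data0 q g W') :
    Data0 q g (fun I J A B => W I J A B - W' I J A B) where
  degR h1 h2 := ((h.degR h1 h2).sub (h'.degR h1 h2)).congr' (mul_sub _ _ _).symm (mul_sub _ _ _).symm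
  degL h1 h2 := ((h.degL h1 h2).sub (h'.degL h1 h2)).congr' (mul_sub _ _ _).symm (mul_sub _ _ _).symm
  degR1 h1 h2 := (h.degR1 h1 h2).sub (h'.degR1 h1 h2)
  degL1 h1 h2 := (h.degL1 h1 h2).sub (h'.degL1 h1 h2)
  nodeRI h1 h2 := by rw [h.nodeRI h1 h2, h'.nodeRI h1 h2, mul_sub]
  nodeRJ h1 h2 := by rw [h.nodeRJ h1 h2, h'.nodeRJ h1 h2, mul_sub]
  nodeLI h1 h2 := by rw [h.nodeLI h1 h2, h'.nodeLI h1 h2, mul_sub]
  nodeLJ h1 h2 := by rw [h.nodeLJ h1 h2, h'.nodeLJ h1 h2, mul_sub]
  exchR h1 := by rw [mul_sub, h.exchR h1, h'.exchR h1]; ring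
  exchL h1 := by rw [mul_sub, h.exchL h1, h'.exchL h1]; ring
  zeroR h1 := by rw [h.zeroR h1, h'.zeroR h1, sub_zero]
  zeroL h1 := by rw [h.zeroL h1, h'.zeroL h1, sub_zero]
  fuseR h1 := by rw [h.fuseR h1, h'.fuseR h1, mul_sub]
  fuseL h1 := by rw [h.fuseL h1, h'.fuseL h1, mul_sub]

/-- The mirror image of a list of ended lines. -/
def mE (A : List El) : List El := A.map fun t => (-t.1, t.2)

/-- The mirror image of a list of rapidities. -/
def mL (I : List ℂ) : List ℂ := I.map fun x => -x

/-- The mirror image of a family. -/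
def mir (W : List ℂ → List ℂ → List El → List El → ℂ) : List ℂ → List ℂ → List El → List El → ℂ :=
  fun I J A B => W (mL I) (mL J) (mE B) (mE A)

theorem mE_nil : mE [] = [] := rfl

theorem mE_cons (z : ℂ) (st : Bool) (A : List El) : mE ((z, st) :: A) = (-z, st) :: mE A := rfl

theorem mE_append (A B : List El) : mE (A ++ B) = mE A ++ mE B := List.map_append

theorem mL_cons (z : ℂ) (A : List ℂ) : mL (z :: A) = -z :: mL A := rfl

theorem mL_append (A B : List ℂ) : mL (A ++ B) = mL A ++ mL B := List.map_append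

theorem length_mE (A : List El) : (mE A).length = A.length := List.length_map _

theorem length_mL (A : List ℂ) : (mL A).length = A.length := List.length_map _

theorem s_neg (k : ℤ) (z : ℂ) : s k (-z) = -s (-k) z := by
  unfold s
  rw [← Complex.sin_neg]
  congr 1
  push_cast
  ring

theorem gen_ne_symm {a b : ℂ} (h : ∀ k : ℤ, s k (a - b) ≠ 0) (k : ℤ) : s k (b - a) ≠ 0 := by
  rw [show b - a = -(a - b) by ring, s_neg]
  exact neg_ne_zero.2 (h _)

theorem gen_mL {L : List ℂ} (h : Gen L) : Gen (mL L) := by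
  unfold Gen mL
  rw [List.pairwise_map]
  exact h.imp fun {a b} hab k => by
    rw [show -a - -b = b - a by ring]
    exact gen_ne_symm hab k

theorem mL_mL (L : List ℂ) : mL (mL L) = L := by
  unfold mL
  rw [List.map_map]
  conv_rhs => rw [← List.map_id L]
  exact List.map_congr_left fun x _ => neg_neg x

theorem mE_mE (L : List El) : mE (mE L) = L := by
  unfold mE
  rw [List.map_map]
  conv_rhs => rw [← List.map_id L]
  exact List.map_congr_left fun x _ => by
    show (- -x.1, x.2) = x
    rw [neg_neg]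

theorem ok_mir {I J : List ℂ} (h : Ok (-g) (-q) I J) : Ok q g (mL I) (mL J) := by
  have h1 := gen_mL h.1
  have h2 := gen_mL h.2
  rw [mL_append, mL_append, mL_cons, neg_neg] at h1 h2
  exact ⟨h2, h1⟩

theorem fam_mir {A B : List El} (h : Fam A B) : Fam (mE B) (mE A) := by
  obtain ⟨h1, h2⟩ := h
  constructor
  · rw [List.length_append, length_mE, length_mE, add_comm, ← List.length_append]
    exact h1
  · have e : ∀ L : List El, ((mE L).filter fun t => t.2).length = (L.filter fun t => t.2).length := by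
      intro L
      unfold mE
      rw [List.filter_map, List.length_map]
      rfl
    rw [List.filter_append, List.length_append, e, e, add_comm, ← List.length_append,
      ← List.filter_append]
    exact h2

theorem rest_mir (q : ℂ) (I J : List ℂ) (A : List El) :
    rest q (mL I) (mL J) (mE A) = mL (rest (-q) I J A) := by
  unfold rest
  rw [mL_append, mL_append, mL_append, mL_cons, neg_neg]
  congr 2
  unfold mE mL
  rw [List.map_map, List.map_map]
  rfl

theorem prod_mir (φ ψ : ℂ → ℂ) (L : List ℂ) (h : ∀ c, φ (-c) = ψ c) :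
    ((mL L).map φ).prod = (L.map ψ).prod := by
  unfold mL
  rw [List.map_map]
  congr 1
  exact List.map_congr_left fun c _ => h c

/-- The properties of the right side. -/
structure Half (q g : ℂ) (W : List ℂ → List ℂ → List El → List El → ℂ) : Prop where
  deg : ∀ {I J : List ℂ} {A B FL : List El}, Ok q g I J → Fam (A ++ (0, false) :: B) FL →
    TPc (I.length + J.length + A.length + B.length + 1) (fun z => W I J (A ++ (z, false) :: B) FL)
      (((rest q I J (A ++ B)).map fun c => Complex.exp (-(Complex.I * c)) / 2).prod * W I J (A ++ B) FL)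
      (((rest q I J (A ++ B)).map fun c => Complex.exp (Complex.I * c) / 2).prod * W I J (A ++ B) FL)
  deg1 : ∀ {I J : List ℂ} {A B FL : List El}, Ok q g I J → Fam (A ++ (0, true) :: B) FL →
    Trig (I.length + J.length + A.length + B.length) (fun z => W I J (A ++ (z, true) :: B) FL)
  nodeI : ∀ {I₁ I₂ J : List ℂ} {A FL : List El} {x : ℂ} {st : Bool}, Ok q g (I₁ ++ x :: I₂) J →
    Fam ((0, st) :: A) FL → W (I₁ ++ x :: I₂) J ((x - 3 * lam, st) :: A) FL =
      Complex.sin lam * ((rest q (I₁ ++ I₂) J A).map fun c => kk (x - c)).prod *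
        W (I₁ ++ I₂) J A ((x, st) :: FL)
  nodeJ : ∀ {I J₁ J₂ : List ℂ} {A FL : List El} {y : ℂ} {st : Bool}, Ok q g I (J₁ ++ y :: J₂) →
    Fam ((0, st) :: A) FL → W I (J₁ ++ y :: J₂) (A ++ [(y + 3 * lam, st)]) FL =
      Complex.sin lam * ((rest q I (J₁ ++ J₂) A).map fun c => kk (c - y)).prod *
        W I (J₁ ++ J₂) A (FL ++ [(y, st)])
  exch : ∀ {I J : List ℂ} {a b : ℂ} {st : Bool}, Ok q g I J →
    kk (b - a) * W I J [(b, st), (a, !st)] [] = s 3 (-(b - a)) *
      (s 2 0 * W I J [(a, st), (b, !st)] [] + s 0 (b - a) * W I J [(a, !st), (b, st)] [])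
  zero : ∀ {I J : List ℂ} {a : ℂ} {st : Bool}, Ok q g I J →
    W I J [(a, st), (a - 3 * lam, !st)] [] = 0
  fuse : ∀ {I J : List ℂ} {a : ℂ} {st : Bool}, Ok q g I J →
    W I J [(a, st), (a - 2 * lam, !st)] [] = Complex.sin lam *
      ((rest q I J []).map fun c => Complex.cos (a - lam - c)).prod * W I J [(a - lam, true)] []

theorem Data0.right (h : Data0 q g W) : Half q g W :=
  ⟨h.degR, h.degR1, h.nodeRI, h.nodeRJ, h.exchR, h.zeroR, h.fuseR⟩

/-- **The mirror image.** -/
theorem Data0.left (h : Data0 q g W) : Half (-g) (-q) (mir W) where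
  deg := by
    intro I J A B FL h1 h2
    have h3 := h.degL (I := mL I) (J := mL J) (A := mE A) (B := mE B) (FR := mE FL) (ok_mir h1) (by
      have := fam_mir h2
      rw [mE_append, mE_cons, neg_zero] at this
      exact this)
    rw [length_mL, length_mL, length_mE, length_mE] at h3
    refine (h3.neg.congr' ?_ ?_).congr_fun fun z => ?_
    · rw [← mE_append, rest_mir, prod_mir _ (fun c => Complex.exp (-(Complex.I * c)) / 2)]
      · rfl
      · intro c
        rw [mul_neg]
    · rw [← mE_append, rest_mir, prod_mir _ (fun c => Complex.exp (Complex.I * c) / 2)]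
      · rfl
      · intro c
        rw [mul_neg, neg_neg]
    · show _ = W _ _ _ (mE (A ++ (z, false) :: B))
      rw [mE_append, mE_cons]
  deg1 := by
    intro I J A B FL h1 h2
    obtain ⟨a, b, h3⟩ := h.degL1 (I := mL I) (J := mL J) (A := mE A) (B := mE B) (FR := mE FL) (ok_mir h1) (by
      have := fam_mir h2
      rw [mE_append, mE_cons, neg_zero] at this
      exact this)
    rw [length_mL, length_mL, length_mE, length_mE] at h3
    refine ⟨_, _, h3.neg.congr_fun fun z => ?_⟩
    show _ = W _ _ _ (mE (A ++ (z, true) :: B))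
    rw [mE_append, mE_cons]
  nodeI := by
    intro I₁ I₂ J A FL x st h1 h2
    have h3 := h.nodeLI (I₁ := mL I₁) (I₂ := mL I₂) (J := mL J) (A := mE A) (FR := mE FL) (x := -x)
      (st := st) (by
        have := ok_mir h1
        rw [mL_append, mL_cons] at this
        exact this) (by
      have := fam_mir h2
      rw [mE_cons, neg_zero] at this
      exact this)
    rw [← mL_append, rest_mir, prod_mir _ (fun c => kk (x - c)) _ (fun c => by congr 1; ring)] at h3
    show W (mL (I₁ ++ x :: I₂)) (mL J) (mE FL) (mE ((x - 3 * lam, st) :: A)) =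
      _ * W (mL (I₁ ++ I₂)) (mL J) (mE ((x, st) :: FL)) (mE A)
    rw [mL_append, mL_cons, mE_cons, mE_cons, neg_sub, sub_eq_add_neg, add_comm (3 * lam)]
    exact h3
  nodeJ := by
    intro I J₁ J₂ A FL y st h1 h2
    have h3 := h.nodeLJ (I := mL I) (J₁ := mL J₁) (J₂ := mL J₂) (A := mE A) (FR := mE FL) (y := -y)
      (st := st) (by
        have := ok_mir h1
        rw [mL_append (A := J₁), mL_cons] at this
        exact this) (by
      have := fam_mir h2
      rw [mE_cons, neg_zero] at this
      exact this)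
    rw [← mL_append, rest_mir, prod_mir _ (fun c => kk (c - y)) _ (fun c => by congr 1; ring)] at h3
    show W (mL I) (mL (J₁ ++ y :: J₂)) (mE FL) (mE (A ++ [(y + 3 * lam, st)])) =
      _ * W (mL I) (mL (J₁ ++ J₂)) (mE (FL ++ [(y, st)])) (mE A)
    rw [mL_append, mL_cons, mE_append, mE_append, mE_cons, mE_cons, neg_add, ← sub_eq_add_neg]
    exact h3
  exch := by
    intro I J a b st h1
    have h3 := h.exchL (I := mL I) (J := mL J) (a := -a) (b := -b) (st := st) (ok_mir h1)
    rw [show -a - -b = b - a by ring] at h3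
    exact h3
  zero := by
    intro I J a st h1
    have h3 := h.zeroL (I := mL I) (J := mL J) (a := -a) (st := st) (ok_mir h1)
    rw [show -a + 3 * lam = -(a - 3 * lam) by ring] at h3
    exact h3
  fuse := by
    intro I J a st h1
    have h3 := h.fuseL (I := mL I) (J := mL J) (a := -a) (st := st) (ok_mir h1)
    rw [show ([] : List El) = mE [] from rfl, rest_mir, prod_mir _ (fun c => Complex.cos (a - lam - c)) _
      (fun c => by rw [← Complex.cos_neg]; congr 1; ring), show -a + 2 * lam = -(a - 2 * lam) by ring,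
      show -a + lam = -(a - lam) by ring] at h3
    exact h3

end lin

/-! ### The family -/

theorem fam_move {A FL : List El} {st : Bool} (x : ℂ) (h : Fam ((0, st) :: A) FL) :
    Fam A ((x, st) :: FL) ∧ Fam A (FL ++ [(x, st)]) := by
  obtain ⟨h1, h2⟩ := h
  unfold Fam
  cases st <;>
    simp only [List.cons_append, List.length_cons, List.filter_cons, List.filter_append,
      List.length_append, List.filter_nil, List.length_nil, Bool.false_eq_true, if_true,
      if_false] at h1 h2 ⊢ <;>
    omega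

theorem fam_tail {A FL : List El} {x y : ℂ} {st : Bool} (h : Fam ((x, st) :: A) FL) :
    Fam ((y, st) :: A) FL := by
  obtain ⟨h1, h2⟩ := h
  unfold Fam
  cases st <;>
    simp only [List.cons_append, List.length_cons, List.filter_cons, List.filter_append,
      List.length_append, Bool.false_eq_true, if_true, if_false] at h1 h2 ⊢ <;>
    omega

theorem fam_one (a : ℂ) : Fam [(a, true)] [] := ⟨by simp, by simp⟩

theorem fam_two (a b : ℂ) (st : Bool) : Fam [(a, st), (b, !st)] [] := by
  cases st <;> exact ⟨by simp, by simp⟩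

theorem fam_eo (a b : ℂ) (st : Bool) : Fam [(a, st)] [(b, !st)] := by
  cases st <;> exact ⟨by simp, by simp⟩

theorem fam_oneL (a : ℂ) : Fam [] [(a, true)] := ⟨by simp, by simp⟩

/-- The members of the family. -/
theorem fam_cases {FR FL : List El} (h : Fam FR FL) :
    (∃ p, FR = [(p, true)] ∧ FL = []) ∨ (∃ p, FR = [] ∧ FL = [(p, true)]) ∨
    (∃ a b st, FR = [(a, st), (b, !st)] ∧ FL = []) ∨ (∃ a b st, FR = [] ∧ FL = [(a, st), (b, !st)]) ∨
    (∃ p h, FR = [(p, true)] ∧ FL = [(h, false)]) ∨ (∃ p h, FR = [(h, false)] ∧ FL = [(p, true)]) := by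
  obtain ⟨h1, h2⟩ := h
  match FR, FL with
  | [], [] => simp at h2
  | [], [(p, st)] => cases st <;> simp at h2 ⊢
  | [], [(p, st), (r, st')] => cases st <;> cases st' <;> simp at h2 ⊢
  | [], _ :: _ :: _ :: _ => simp at h1
  | [(p, st)], [] => cases st <;> simp at h2 ⊢
  | [(p, st)], [(r, st')] => cases st <;> cases st' <;> simp at h2 ⊢
  | [(p, st)], _ :: _ :: _ => simp at h1
  | [(p, st), (r, st')], [] => cases st <;> cases st' <;> simp at h2 ⊢
  | [_, _], _ :: _ => simp at h1
  | _ :: _ :: _ :: _, _ => simp at h1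

/-! ### One level -/

/-- The nodes of the right side. -/
noncomputable def nodes (I J : List ℂ) : List ℂ := I.map (fun x => x - 3 * lam) ++ J.map (fun y => y + 3 * lam)

theorem gen_ne {L : List ℂ} (h : Gen L) {a b : ℂ} (ha : a ∈ L) (hb : b ∈ L) :
    a = b ∨ ∀ k : ℤ, s k (a - b) ≠ 0 := by
  by_cases hab : a = b
  · exact Or.inl hab
  · right
    have : Std.Symm (fun a b : ℂ => ∀ k : ℤ, s k (a - b) ≠ 0) := ⟨fun _ _ h => gen_ne_symm h⟩
    exact List.Pairwise.forall h ha hb hab

theorem sin_lam_ne (k : ℕ) (h1 : 0 < k) (h2 : k < 8) : Complex.sin (k * lam) ≠ 0 := by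
  have h3 : (k : ℝ) < 8 := by exact_mod_cast h2
  have h4 : (0 : ℝ) < k := by exact_mod_cast h1
  have h5 : 0 < Real.sin (k * (Real.pi / 8)) := by
    apply Real.sin_pos_of_pos_of_lt_pi
    · positivity
    · nlinarith [Real.pi_pos]
  rw [show (k : ℂ) * lam = ((k * (Real.pi / 8) : ℝ) : ℂ) by unfold lam; push_cast; ring,
    ← Complex.ofReal_sin]
  exact_mod_cast h5.ne'

theorem lam8 : 8 * lam = Real.pi := by
  unfold lam
  ring

theorem cos_eq_s (k : ℤ) (z w : ℂ) (h : w = z + (k - 4) * lam) : Complex.cos w = s k z := by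
  unfold s
  rw [h, ← Complex.sin_add_pi_div_two]
  congr 1
  have := lam8
  linear_combination (-1 / 2) * this

/-- `sin` at a generic difference or at a small multiple of `λ`. -/
theorem gen_sin {L : List ℂ} (h : Gen L) {a b : ℂ} (ha : a ∈ L) (hb : b ∈ L) (k : ℕ) (h1 : 0 < k)
    (h2 : k < 8) : s k (a - b) ≠ 0 := by
  rcases gen_ne h ha hb with rfl | h3
  · unfold s
    rw [sub_self, zero_add]
    exact_mod_cast sin_lam_ne k h1 h2
  · exact h3 k

theorem sin_sq_sub (x d : ℂ) : Complex.sin x ^ 2 - Complex.sin d ^ 2 = Complex.sin (x - d) * Complex.sin (x + d) := by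
  rw [Complex.sin_add, Complex.sin_sub]
  have c1 := Complex.sin_sq_add_cos_sq x
  have c2 := Complex.sin_sq_add_cos_sq d
  linear_combination Complex.sin d ^ 2 * c1 - Complex.sin x ^ 2 * c2

theorem prod_ne_of {φ : ℂ → ℂ} {q : ℂ} {I J : List ℂ} (h : ∀ c ∈ I ++ J ++ [q], φ c ≠ 0) :
    ((rest q I J []).map φ).prod ≠ 0 := by
  apply List.prod_ne_zero
  intro h0
  obtain ⟨c, hc, h1⟩ := List.mem_map.1 h0
  refine h c ?_ h1
  unfold rest at hc
  rwa [List.map_nil, List.append_nil] at hc

section level

variable {q g : ℂ} {D : List ℂ → List ℂ → List El → List El → ℂ} {I J : List ℂ}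

/-- The lower level vanishes. -/
def Low (q g : ℂ) (D : List ℂ → List ℂ → List El → List El → ℂ) (I J : List ℂ) : Prop :=
  ∀ I' J', Ok q g I' J' → I'.length + J'.length + 1 = I.length + J.length →
    ∀ FR FL, Fam FR FL → D I' J' FR FL = 0

theorem ok_subI {I₁ I₂ : List ℂ} {x : ℂ} (h : Ok q g (I₁ ++ x :: I₂) J) : Ok q g (I₁ ++ I₂) J := by
  have e : (I₁ ++ I₂).Sublist (I₁ ++ x :: I₂) := List.Sublist.append_left (List.sublist_cons_self _ _) _
  exact ⟨h.1.sublist ((e.append_right _).append_right _), h.2.sublist ((e.append_right _).append_right _)⟩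

theorem ok_subJ {J₁ J₂ : List ℂ} {y : ℂ} (h : Ok q g I (J₁ ++ y :: J₂)) : Ok q g I (J₁ ++ J₂) := by
  have e : (J₁ ++ J₂).Sublist (J₁ ++ y :: J₂) := List.Sublist.append_left (List.sublist_cons_self _ _) _
  exact ⟨h.1.sublist ((List.Sublist.append_left e _).append_right _),
    h.2.sublist ((List.Sublist.append_left e _).append_right _)⟩

variable (h : Half q g D) (ok : Ok q g I J) (low : Low q g D I J)
include h ok low

theorem lowI {x : ℂ} (hx : x ∈ I) {st : Bool} {A FL : List El} (hF : Fam ((0, st) :: A) FL) :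
    D I J ((x - 3 * lam, st) :: A) FL = 0 := by
  obtain ⟨I₁, I₂, rfl⟩ := List.append_of_mem hx
  rw [h.nodeI ok hF, low (I₁ ++ I₂) J (ok_subI ok) (by simp; omega) _ _ (fam_move x hF).1, mul_zero]

theorem lowJ {y : ℂ} (hy : y ∈ J) {st : Bool} {A FL : List El} (hF : Fam ((0, st) :: A) FL) :
    D I J (A ++ [(y + 3 * lam, st)]) FL = 0 := by
  obtain ⟨J₁, J₂, rfl⟩ := List.append_of_mem hy
  rw [h.nodeJ ok hF, low I (J₁ ++ J₂) (ok_subJ ok) (by simp; omega) _ _ (fam_move y hF).2, mul_zero]

/-- One ended line on the right, at a node. -/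
theorem one_node {v : ℂ} (hv : v ∈ nodes I J) {st : Bool} {FL : List El} (hF : Fam [(0, st)] FL) :
    D I J [(v, st)] FL = 0 := by
  rcases List.mem_append.1 hv with h1 | h1
  · obtain ⟨x, hx, rfl⟩ := List.mem_map.1 h1
    exact lowI h ok low hx hF
  · obtain ⟨y, hy, rfl⟩ := List.mem_map.1 h1
    exact lowJ h ok low hy (A := []) hF

omit low in
/-- Two ended lines on the right: trigonometric polynomial in the lower line. -/
theorem trig_a (st : Bool) (b : ℂ) : ∃ n, Trig n fun a => D I J [(a, st), (b, !st)] [] := by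
  cases st
  · exact ⟨_, (h.deg (A := []) (B := [(b, true)]) (FL := []) ok ⟨by simp, by simp⟩).trig⟩
  · exact ⟨_, h.deg1 (A := []) (B := [(b, false)]) (FL := []) ok ⟨by simp, by simp⟩⟩

omit low in
/-- Two ended lines on the right: trigonometric polynomial in the upper line. -/
theorem trig_b (st : Bool) (a : ℂ) : ∃ n, Trig n fun b => D I J [(a, st), (b, !st)] [] := by
  cases st
  · exact ⟨_, h.deg1 (A := [(a, false)]) (B := []) (FL := []) ok ⟨by simp, by simp⟩⟩
  · exact ⟨_, (h.deg (A := [(a, true)]) (B := []) (FL := []) ok ⟨by simp, by simp⟩).trig⟩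

omit low in
/-- The exchange relation is invertible for generic rapidities. -/
theorem exch_zero {a b : ℂ} (h0 : ∀ st, D I J [(b, st), (a, !st)] [] = 0)
    (h1 : Complex.sin (a - b + 3 * lam) ≠ 0) (h2 : Complex.sin (a - b + 2 * lam) ≠ 0)
    (h3 : Complex.sin (a - b - 2 * lam) ≠ 0) (st : Bool) : D I J [(a, st), (b, !st)] [] = 0 := by
  have key : ∀ st, s 2 0 * D I J [(a, st), (b, !st)] [] + s 0 (b - a) * D I J [(a, !st), (b, st)] [] = 0 := by
    intro st
    have e := h.exch (a := a) (b := b) (st := st) ok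
    rw [h0, mul_zero] at e
    have e1 : s 3 (-(b - a)) ≠ 0 := by
      unfold s
      rw [show -(b - a) + (3 : ℤ) * lam = a - b + 3 * lam by push_cast; ring]
      exact h1
    exact (mul_eq_zero.1 e.symm).resolve_left e1
  have k1 := key st
  have k2 := key (!st)
  rw [Bool.not_not] at k2
  have e2 : s 2 0 ^ 2 - s 0 (b - a) ^ 2 = Complex.sin (a - b + 2 * lam) * (-Complex.sin (a - b - 2 * lam)) := by
    unfold s
    rw [← Complex.sin_neg, show (0 : ℂ) + (2 : ℤ) * lam = 2 * lam by push_cast; ring,
      show b - a + (0 : ℤ) * lam = b - a by push_cast; ring,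
      show a - b + 2 * lam = 2 * lam - (b - a) by ring, show -(a - b - 2 * lam) = 2 * lam + (b - a) by ring]
    exact sin_sq_sub _ _
  have e3 : (s 2 0 ^ 2 - s 0 (b - a) ^ 2) * D I J [(a, st), (b, !st)] [] = 0 := by
    linear_combination s 2 0 * k1 - s 0 (b - a) * k2
  rw [e2] at e3
  exact (mul_eq_zero.1 e3).resolve_left (mul_ne_zero h2 (neg_ne_zero.2 h3))

/-- Two ended lines on the right, the upper one at a node. -/
theorem two_b {b : ℂ} (hb : b ∈ nodes I J) (st : Bool) (a : ℂ) : D I J [(a, st), (b, !st)] [] = 0 := by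
  rcases List.mem_append.1 hb with h1 | h1
  · obtain ⟨x, hx, rfl⟩ := List.mem_map.1 h1
    obtain ⟨n, hn⟩ := trig_a h ok st (x - 3 * lam)
    have key := hn.zero_gen [x - 3 * lam - 3 * lam, x - 3 * lam - 2 * lam, x - 3 * lam + 2 * lam] (fun a ha => by
      refine exch_zero h ok (a := a) (b := x - 3 * lam) (fun st' => ?_) ?_ ?_ ?_ st
      · exact lowI h ok low hx (fam_tail (fam_two 0 a st'))
      · rw [show a - (x - 3 * lam) + 3 * lam = a - (x - 3 * lam - 3 * lam) by ring]
        exact ha _ (by simp)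
      · rw [show a - (x - 3 * lam) + 2 * lam = a - (x - 3 * lam - 2 * lam) by ring]
        exact ha _ (by simp)
      · rw [show a - (x - 3 * lam) - 2 * lam = a - (x - 3 * lam + 2 * lam) by ring]
        exact ha _ (by simp))
    exact key a
  · obtain ⟨y, hy, rfl⟩ := List.mem_map.1 h1
    refine lowJ h ok low hy (A := [(a, st)]) ?_
    cases st <;> exact ⟨by simp, by simp⟩

/-- Two ended lines on the right, the lower one at a node. -/
theorem two_a {a : ℂ} (ha : a ∈ nodes I J) (st : Bool) (b : ℂ) : D I J [(a, st), (b, !st)] [] = 0 := by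
  rcases List.mem_append.1 ha with h1 | h1
  · obtain ⟨x, hx, rfl⟩ := List.mem_map.1 h1
    exact lowI h ok low hx (fam_tail (fam_two 0 b st))
  · obtain ⟨y, hy, rfl⟩ := List.mem_map.1 h1
    obtain ⟨n, hn⟩ := trig_b h ok st (y + 3 * lam)
    have key := hn.zero_gen [y + 3 * lam + 3 * lam, y + 3 * lam + 2 * lam, y + 3 * lam - 2 * lam] (fun b hb => by
      refine exch_zero h ok (a := y + 3 * lam) (b := b) (fun st' => ?_) ?_ ?_ ?_ st
      · refine lowJ h ok low hy (A := [(b, st')]) ?_
        cases st' <;> exact ⟨by simp, by simp⟩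
      · rw [show y + 3 * lam - b + 3 * lam = -(b - (y + 3 * lam + 3 * lam)) by ring, Complex.sin_neg]
        exact neg_ne_zero.2 (hb _ (by simp))
      · rw [show y + 3 * lam - b + 2 * lam = -(b - (y + 3 * lam + 2 * lam)) by ring, Complex.sin_neg]
        exact neg_ne_zero.2 (hb _ (by simp))
      · rw [show y + 3 * lam - b - 2 * lam = -(b - (y + 3 * lam - 2 * lam)) by ring, Complex.sin_neg]
        exact neg_ne_zero.2 (hb _ (by simp)))
    exact key b

omit h ok low in
theorem nodes_length : (nodes I J).length = I.length + J.length := by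
  unfold nodes
  rw [List.length_append, List.length_map, List.length_map]

omit h ok low in
theorem gen_IJ (ok : Ok q g I J) : Gen (I ++ J) := ok.1.sublist (List.sublist_append_left _ _)

omit h low in
/-- The nodes are distinct. -/
theorem nodes_pw : (nodes I J).Pairwise fun z w => Complex.sin (z - w) ≠ 0 := by
  have hG := gen_IJ ok
  unfold Gen at hG
  rw [List.pairwise_append] at hG
  unfold nodes
  rw [List.pairwise_append, List.pairwise_map, List.pairwise_map]
  refine ⟨hG.1.imp fun {a b} hab => ?_, hG.2.1.imp fun {a b} hab => ?_, ?_⟩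
  · have h1 := hab 0
    unfold s at h1
    rwa [show a - b + (0 : ℤ) * lam = a - 3 * lam - (b - 3 * lam) by push_cast; ring] at h1
  · have h1 := hab 0
    unfold s at h1
    rwa [show a - b + (0 : ℤ) * lam = a + 3 * lam - (b + 3 * lam) by push_cast; ring] at h1
  · intro a ha b hb
    obtain ⟨x, hx, rfl⟩ := List.mem_map.1 ha
    obtain ⟨y, hy, rfl⟩ := List.mem_map.1 hb
    have h1 := hG.2.2 x hx y hy (-6)
    unfold s at h1
    rwa [show x - y + (-6 : ℤ) * lam = x - 3 * lam - (y + 3 * lam) by push_cast; ring] at h1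

/-- The occupied line on the right. -/
theorem R_extra (hN : 0 < I.length + J.length) : ∃ w, D I J [(w, true)] [] = 0 ∧
    ∀ v ∈ nodes I J, Complex.sin (w - v) ≠ 0 := by
  have hG := gen_IJ ok
  have h2 : Complex.sin lam ≠ 0 := by
    have := sin_lam_ne 1 (by norm_num) (by norm_num)
    rwa [Nat.cast_one, one_mul] at this
  rcases I with _ | ⟨x, I⟩
  · rcases J with _ | ⟨y, J⟩
    · simp at hN
    · refine ⟨y + 2 * lam, ?_, ?_⟩
      · have e := h.fuse (a := y + 3 * lam) (st := true) ok
        have e1 : D [] (y :: J) [(y + 3 * lam, true), (y + 3 * lam - 2 * lam, !true)] [] = 0 :=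
          two_a h ok low (List.mem_append_right _ (List.mem_map_of_mem (f := fun y => y + 3 * lam) (by simp))) _ _
        rw [e1, show y + 3 * lam - lam = y + 2 * lam by ring] at e
        refine (mul_eq_zero.1 e.symm).resolve_left (mul_ne_zero h2 ?_)
        refine prod_ne_of fun c hc => ?_
        rw [cos_eq_s 6 (y - c) _ (by push_cast; ring)]
        exact gen_sin ok.1 (by simp) hc 6 (by norm_num) (by norm_num)
      · intro v hv
        obtain ⟨y', hy, rfl⟩ := List.mem_map.1 ((List.mem_append.1 hv).resolve_left (by simp))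
        have h3 := gen_sin hG (a := y') (b := y) (by simpa using hy) (by simp) 1 (by norm_num) (by norm_num)
        unfold s at h3
        rw [show y + 2 * lam - (y' + 3 * lam) = -(y' - y + ((1 : ℕ) : ℤ) * lam) by push_cast; ring,
          Complex.sin_neg]
        exact neg_ne_zero.2 h3
  · refine ⟨x - 2 * lam, ?_, ?_⟩
    · have e := h.fuse (a := x - lam) (st := true) ok
      have e1 : D (x :: I) J [(x - lam, true), (x - lam - 2 * lam, !true)] [] = 0 := by
        refine two_b h ok low ?_ _ _
        rw [show x - lam - 2 * lam = x - 3 * lam by ring]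
        exact List.mem_append_left _ (List.mem_map_of_mem (f := fun x => x - 3 * lam) (by simp))
      rw [e1, show x - lam - lam = x - 2 * lam by ring] at e
      refine (mul_eq_zero.1 e.symm).resolve_left (mul_ne_zero h2 ?_)
      refine prod_ne_of fun c hc => ?_
      rw [cos_eq_s 2 (x - c) _ (by push_cast; ring)]
      exact gen_sin ok.1 (by simp) hc 2 (by norm_num) (by norm_num)
    · intro v hv
      rcases List.mem_append.1 hv with h1 | h1
      · obtain ⟨x', hx, rfl⟩ := List.mem_map.1 h1
        have h3 := gen_sin hG (a := x) (b := x') (by simp) (List.mem_append_left _ hx) 1 (by norm_num)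
          (by norm_num)
        unfold s at h3
        rwa [show x - 2 * lam - (x' - 3 * lam) = x - x' + ((1 : ℕ) : ℤ) * lam by push_cast; ring]
      · obtain ⟨y, hy, rfl⟩ := List.mem_map.1 h1
        have h3 := gen_sin hG (a := y) (b := x) (List.mem_append_right _ hy) (by simp) 5 (by norm_num)
          (by norm_num)
        unfold s at h3
        rw [show x - 2 * lam - (y + 3 * lam) = -(y - x + ((5 : ℕ) : ℤ) * lam) by push_cast; ring,
          Complex.sin_neg]
        exact neg_ne_zero.2 h3

theorem R_zero (hN : 0 < I.length + J.length) (p : ℂ) : D I J [(p, true)] [] = 0 := by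
  obtain ⟨w, h1, h2⟩ := R_extra h ok low hN
  have h3 := h.deg1 (A := []) (B := []) (FL := []) ok ⟨by simp, by simp⟩
  refine h3.zero (L := w :: nodes I J) ?_ ?_ ?_ p
  · rw [List.pairwise_cons]
    exact ⟨h2, nodes_pw ok⟩
  · intro z hz
    rcases List.mem_cons.1 hz with rfl | hz
    · exact h1
    · exact one_node h ok low hz ⟨by simp, by simp⟩
  · rw [List.length_cons, nodes_length]
    simp

/-- Two ended lines on the right, the lower one empty. -/
theorem Y_zero (hN : 0 < I.length + J.length) (a b : ℂ) : D I J [(a, false), (b, true)] [] = 0 := by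
  have h0 := R_zero h ok low hN
  have key : ∀ b, (∀ e ∈ (nodes I J).map (fun v => v - 3 * lam), Complex.sin (b - e) ≠ 0) →
      ∀ a, D I J [(a, false), (b, true)] [] = 0 := by
    intro b hb a
    have h3 := h.deg (A := []) (B := [(b, true)]) (FL := []) ok ⟨by simp, by simp⟩
    rw [List.nil_append, h0 b, mul_zero, mul_zero] at h3
    refine h3.zero (L := (b + 3 * lam) :: nodes I J) ?_ ?_ ?_ a
    · rw [List.pairwise_cons]
      refine ⟨fun v hv => ?_, nodes_pw ok⟩
      rw [show b + 3 * lam - v = b - (v - 3 * lam) by ring]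
      exact hb _ (List.mem_map_of_mem (f := fun v => v - 3 * lam) hv)
    · intro z hz
      rcases List.mem_cons.1 hz with rfl | hz
      · have := h.zero (a := b + 3 * lam) (st := false) ok
        rwa [add_sub_cancel_right] at this
      · exact two_a h ok low hz false b
    · simp only [List.length_cons, List.length_nil, nodes_length]
      omega
  obtain ⟨n, hn⟩ := trig_b h ok false a
  exact hn.zero_gen _ (fun b hb => key b hb a) b

/-- Two ended lines on the right, the upper one empty. -/
theorem X_zero (hN : 0 < I.length + J.length) (a b : ℂ) : D I J [(a, true), (b, false)] [] = 0 := by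
  have h0 := R_zero h ok low hN
  have key : ∀ a, (∀ e ∈ (nodes I J).map (fun v => v + 3 * lam), Complex.sin (a - e) ≠ 0) →
      ∀ b, D I J [(a, true), (b, false)] [] = 0 := by
    intro a ha b
    have h3 := h.deg (A := [(a, true)]) (B := []) (FL := []) ok ⟨by simp, by simp⟩
    rw [List.append_nil, h0 a, mul_zero, mul_zero] at h3
    refine h3.zero (L := (a - 3 * lam) :: nodes I J) ?_ ?_ ?_ b
    · rw [List.pairwise_cons]
      refine ⟨fun v hv => ?_, nodes_pw ok⟩
      rw [show a - 3 * lam - v = a - (v + 3 * lam) by ring]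
      exact ha _ (List.mem_map_of_mem (f := fun v => v + 3 * lam) hv)
    · intro z hz
      rcases List.mem_cons.1 hz with rfl | hz
      · exact h.zero (a := a) (st := true) ok
      · exact two_b h ok low hz true a
    · simp only [List.length_cons, List.length_nil, nodes_length]
      omega
  obtain ⟨n, hn⟩ := trig_a h ok true b
  exact hn.zero_gen _ (fun a ha => key a ha b) a

/-- An empty line on the right, the occupied line on the left. -/
theorem E_zero (h0 : ∀ p, D I J [] [(p, true)] = 0) (e p : ℂ) : D I J [(e, false)] [(p, true)] = 0 := by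
  have h3 := h.deg (A := []) (B := []) (FL := [(p, true)]) ok ⟨by simp, by simp⟩
  rw [List.nil_append, h0 p, mul_zero, mul_zero] at h3
  refine h3.zero (L := nodes I J) (nodes_pw ok) ?_ ?_ e
  · intro z hz
    exact one_node h ok low hz ⟨by simp, by simp⟩
  · rw [nodes_length]
    simp

end level

/-! ### Uniqueness -/

section main

variable {q g : ℂ} {D W W' : List ℂ → List ℂ → List El → List El → ℂ}

theorem ok_mir' {I J : List ℂ} (h : Ok q g I J) : Ok (-g) (-q) (mL I) (mL J) := by
  apply ok_mir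
  rwa [neg_neg, neg_neg]

theorem mir_mir (I J : List ℂ) (A B : List El) : mir (mir D) I J A B = D I J A B := by
  unfold mir
  rw [mL_mL, mL_mL, mE_mE, mE_mE]

/-- One level. -/
theorem step (h : Data0 q g D) {I J : List ℂ} (ok : Ok q g I J) (low : Low q g D I J)
    (hN : 0 < I.length + J.length) {FR FL : List El} (hF : Fam FR FL) : D I J FR FL = 0 := by
  have hR := h.right
  have hL := h.left
  have ok' := ok_mir' ok
  have low' : Low (-g) (-q) (mir D) (mL I) (mL J) := by
    intro I' J' h1 h2 FR FL h3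
    rw [length_mL, length_mL] at h2
    exact low _ _ (ok_mir h1) (by rw [length_mL, length_mL]; exact h2) _ _ (fam_mir h3)
  have hN' : 0 < (mL I).length + (mL J).length := by rw [length_mL, length_mL]; exact hN
  have back : ∀ A B, D I J A B = mir D (mL I) (mL J) (mE B) (mE A) := by
    intro A B
    unfold mir
    rw [mL_mL, mL_mL, mE_mE, mE_mE]
  have l1 : ∀ p, D I J [] [(p, true)] = 0 := by
    intro p
    rw [back, mE_cons, mE_nil]
    exact R_zero hL ok' low' hN' _
  rcases fam_cases hF with ⟨p, rfl, rfl⟩ | ⟨p, rfl, rfl⟩ | ⟨a, b, st, rfl, rfl⟩ | ⟨a, b, st, rfl, rfl⟩ |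
    ⟨p, e, rfl, rfl⟩ | ⟨p, e, rfl, rfl⟩
  · exact R_zero hR ok low hN p
  · exact l1 p
  · cases st
    · exact Y_zero hR ok low hN a b
    · exact X_zero hR ok low hN a b
  · rw [back, mE_cons, mE_cons, mE_nil]
    cases st
    · exact Y_zero hL ok' low' hN' _ _
    · exact X_zero hL ok' low' hN' _ _
  · rw [back, mE_cons, mE_cons, mE_nil]
    refine E_zero hL ok' low' (fun p => ?_) _ _
    have := back [(-p, true)] []
    rw [mE_cons, mE_nil, neg_neg] at this
    rw [← this]
    exact R_zero hR ok low hN _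
  · exact E_zero hR ok low l1 e p

/-- **Uniqueness.** -/
theorem Data.unique (h : Data q g W) (h' : Data q g W') {I J : List ℂ} (ok : Ok q g I J)
    {FR FL : List El} (hF : Fam FR FL) : W I J FR FL = W' I J FR FL := by
  have h0 := h.toData0.sub h'.toData0
  have key : ∀ N : ℕ, ∀ I J : List ℂ, I.length + J.length = N → Ok q g I J → ∀ FR FL : List El,
      Fam FR FL → W I J FR FL - W' I J FR FL = 0 := by
    intro N
    induction N with
    | zero =>
      intro I J hN _ FR FL hF
      have hI : I = [] := List.length_eq_zero_iff.1 (by omega)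
      have hJ : J = [] := List.length_eq_zero_iff.1 (by omega)
      subst hI hJ
      rw [sub_eq_zero]
      rcases fam_cases hF with ⟨p, rfl, rfl⟩ | ⟨p, rfl, rfl⟩ | ⟨a, b, st, rfl, rfl⟩ |
        ⟨a, b, st, rfl, rfl⟩ | ⟨p, e, rfl, rfl⟩ | ⟨p, e, rfl, rfl⟩
      · rw [h.nilR, h'.nilR]
      · rw [h.nilL, h'.nilL]
      · cases st
        · exact (h.nilY a b).trans (h'.nilY a b).symm
        · exact (h.nilX a b).trans (h'.nilX a b).symm
      · rw [h.nilLL, h'.nilLL]
      · rw [h.nilOE, h'.nilOE]
      · rw [h.nilEO, h'.nilEO]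
    | succ N ih =>
      intro I J hN ok FR FL hF
      exact step h0 ok (fun I' J' h1 h2 FR FL h3 => ih I' J' (by omega) h1 FR FL h3) (by omega) hF
  exact sub_eq_zero.1 (key _ I J rfl ok FR FL hF)

end main

end Pool.Agent.TP
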